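import Pool.Agent.H.MP_360cb4_gt.A

set_option autoImplicit false

namespace Pool.Agent.Results.MP_360cb4_gt.NotDet

open Set

/-- `A` is a `K`-determined subset of `X`. -/
def KDet (K : ∀ (Y : Type) [TopologicalSpace Y], Prop) (X : Type) [TopologicalSpace X]
    (A : Set X) : Prop :=
  ∀ (Y : Type) [TopologicalSpace Y], K Y → ∀ f : X → Y, Continuous f →
    ∃! y : Y, closure (f '' A) = closure {y}

/-- `X` is a `K`-determined space. -/
def KDetSpace (K : ∀ (Y : Type) [TopologicalSpace Y], Prop) (X : Type) [TopologicalSpace X] :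
    Prop :=
  {A : Set X | IsClosed A ∧ IsIrreducible A} = {A : Set X | IsClosed A ∧ KDet K X A}

/-- nonempty compact saturated subsets. -/
def Smyth (X : Type) [TopologicalSpace X] : Type :=
  {Q : Set X // Q.Nonempty ∧ IsCompact Q ∧
    ∀ x : X, (∀ U : Set X, IsOpen U → Q ⊆ U → x ∈ U) → x ∈ Q}

/-- the upper Vietoris topology. -/
def upperVietoris (X : Type) [TopologicalSpace X] : TopologicalSpace (Smyth X) :=
  TopologicalSpace.generateFrom {S | ∃ U : Set X, IsOpen U ∧ S = {Q : Smyth X | Q.1 ⊆ U}}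

/-- `K` is adequate. -/
def Adequate (K : ∀ (Y : Type) [TopologicalSpace Y], Prop) : Prop :=
  ∀ (X : Type) [TopologicalSpace X], T0Space X →
    @K {A : Set X // IsClosed A ∧ KDet K X A} (TopologicalSpace.generateFrom
      {S | ∃ U : Set X, IsOpen U ∧ S = {A | (A.1 ∩ U).Nonempty}})

/-- `K` is a Smyth category. -/
def SmythCategory (K : ∀ (Y : Type) [TopologicalSpace Y], Prop) : Prop :=
  ∀ (X : Type) [TopologicalSpace X], K X → @K (Smyth X) (upperVietoris X)

theorem result : ∃ K : ∀ (Y : Type) [TopologicalSpace Y], Prop,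
    (∀ (Y : Type) [TopologicalSpace Y], K Y → T0Space Y) ∧
    (∀ (Y : Type) [TopologicalSpace Y], T0Space Y → QuasiSober Y → K Y) ∧
    (∀ (Y Z : Type) [TopologicalSpace Y] [TopologicalSpace Z], (Y ≃ₜ Z) → K Y → K Z) ∧
    Adequate K ∧ SmythCategory K ∧
    ∃ (X : Type) (_ : TopologicalSpace X), T0Space X ∧ KDetSpace K X ∧
      ∃ A : Set (Smyth X), @IsClosed _ (upperVietoris X) A ∧
        @IsIrreducible _ (upperVietoris X) A ∧ ¬ @KDet K (Smyth X) (upperVietoris X) A := by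
  open H.MP_9fb79a_gt H.MP_360cb4_gt in
  refine ⟨SK, fun _ _ h => h.1, SK_sober, SK_homeo, fun X _ _ => adequate X, smyth,
    XX, inferInstance, inferInstance, ?_, AA, AA_closed, AA_irr, fun h => ?_⟩
  · ext A
    refine and_congr_right fun hA => ⟨fun h Y _ hY f hf => ?_, H.MP_360cb4_gt.irr_of_det⟩
    have := hY.1
    obtain ⟨y, hy⟩ := H.MP_9fb79a_gt.det_X hA h Y hY f hf
    exact ⟨y, hy, fun w hw => H.MP_360cb4_gt.gen_unique (hw.symm.trans hy)⟩
  · obtain ⟨y, hy, -⟩ := h _ H.MP_9fb79a_gt.WF_Y.sk _ H.MP_9fb79a_gt.phi_cont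
    exact H.MP_9fb79a_gt.no_gen y hy

end Pool.Agent.Results.MP_360cb4_gt.NotDet
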